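import Pool.Agent.Helper73.LF.Goals
import Pool.Agent.Helper92.Field.Divisor

/-!
# Linear forms in algebraic numbers (MP_c307ca_nt), packet BLK
-/

set_option autoImplicit false

open Finset Filter

namespace Pool.Agent.Helper23.LF

open Pool.Agent.Helper98.Lang Pool.Agent.Helper73.LF

theorem inner_le {P : ℕ → ℝ} (hP : ∀ y, 0 ≤ P y) {q T Y : ℕ} (hq : 1 ≤ q)
    (hY : ∀ h, 1 ≤ h → h < T → h * q ≤ Y) :
    ∑ h ∈ Ico 1 T, P (h * q) ≤ ∑ y ∈ Icc 1 Y, if q ∣ y then P y else 0 := by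
  rw [← sum_filter]
  have hinj : Set.InjOn (fun h => h * q) (Ico 1 T : Set ℕ) := by
    intro a _ b _ hab
    exact Nat.eq_of_mul_eq_mul_right (by omega) hab
  rw [← sum_image (f := P) (g := fun h => h * q) hinj]
  apply sum_le_sum_of_subset_of_nonneg
  · intro y hy
    obtain ⟨h, hh, rfl⟩ := mem_image.1 hy
    rw [mem_Ico] at hh
    rw [mem_filter, mem_Icc]
    exact ⟨⟨Nat.mul_pos hh.1 hq, hY h hh.1 hh.2⟩, Dvd.intro_left h rfl⟩
  · intro y _ _
    exact hP y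

theorem block_le {P : ℕ → ℝ} (hP : ∀ y, 0 ≤ P y) {D : ℝ} (Q : Finset ℕ) (T : ℕ → ℕ) (Y : ℕ)
    (hQ : ∀ q ∈ Q, 1 ≤ q) (hY : ∀ q ∈ Q, ∀ h, 1 ≤ h → h < T q → h * q ≤ Y)
    (hD : ∀ y, 1 ≤ y → y ≤ Y → (y.divisors.card : ℝ) ≤ D) :
    ∑ q ∈ Q, ∑ h ∈ Ico 1 (T q), P (h * q) ≤ D * ∑ y ∈ Icc 1 Y, P y := by
  calc ∑ q ∈ Q, ∑ h ∈ Ico 1 (T q), P (h * q)
      ≤ ∑ q ∈ Q, ∑ y ∈ Icc 1 Y, (if q ∣ y then P y else 0) :=
        sum_le_sum fun q hq => inner_le hP (hQ q hq) (hY q hq)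
    _ = ∑ y ∈ Icc 1 Y, ∑ q ∈ Q, (if q ∣ y then P y else 0) := sum_comm
    _ ≤ ∑ y ∈ Icc 1 Y, D * P y := by
        apply sum_le_sum
        intro y hy
        rw [mem_Icc] at hy
        rw [← sum_filter, sum_const, nsmul_eq_mul]
        apply mul_le_mul_of_nonneg_right _ (hP y)
        refine le_trans ?_ (hD y hy.1 hy.2)
        have h1 : Q.filter (fun q => q ∣ y) ⊆ y.divisors := fun q hq =>
          Nat.mem_divisors.2 ⟨(mem_filter.1 hq).2, by omega⟩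
        exact_mod_cast card_le_card h1
    _ = D * ∑ y ∈ Icc 1 Y, P y := by rw [mul_sum]

/-- One dyadic block. -/
theorem dyadic {P : ℕ → ℝ} (hP : ∀ y, 0 ≤ P y) {e c d C0 C E : ℝ} (he : 0 < e) (hc : 0 < c)
    (hd : 0 < d) (hd1 : d ≤ 1 / 2) (hC0 : 0 < C0) (hC : 0 < C) (hE : 0 ≤ E)
    (hdiv : ∀ n : ℕ, n ≠ 0 → (n.divisors.card : ℝ) ≤ C0 * (n : ℝ) ^ d)
    (hsum : ∀ Y : ℕ, ∑ y ∈ Icc 1 Y, P y ≤ C * (Y : ℝ) ^ (1 + d) * E)
    (S : Finset ℕ) (R : ℕ) (hR : 1 ≤ R) (hS : ∀ q ∈ S, 2 ≤ q ∧ R ≤ q ∧ q < 2 * R) :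
    ∑ q ∈ S, tq e c q * ∑ h ∈ Ico 1 (Tq e c q), P (h * q)
      ≤ (c / Real.log 2 ^ (1 + e) * C0 * C * (4 * (((1 + e) / d) ^ (1 + e)) / c) ^ (1 + 2 * d)) *
        (R : ℝ) ^ (1 + 6 * d) * E := by
  have hR1 : (1 : ℝ) ≤ R := by exact_mod_cast hR
  have hR0 : (0 : ℝ) < R := by linarith
  have hl2 : 0 < Real.log 2 := Real.log_pos (by norm_num)
  set C1 := c / Real.log 2 ^ (1 + e) with hC1
  have hC1p : 0 < C1 := div_pos hc (Real.rpow_pos_of_pos hl2 _)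
  set B := ((1 + e) / d) ^ (1 + e) with hB
  have hBp : 0 < B := Real.rpow_pos_of_pos (by positivity) _
  set C3 := 4 * B / c with hC3
  have hC3p : 0 < C3 := by positivity
  set Y := ⌊C3 * (R : ℝ) ^ (2 + d)⌋₊ with hYdef
  have hYle : (Y : ℝ) ≤ C3 * (R : ℝ) ^ (2 + d) := Nat.floor_le (by positivity)
  have hlog : ∀ q ∈ S, 0 < Real.log (q : ℝ) ∧ Real.log 2 ≤ Real.log (q : ℝ) := by
    intro q hq
    have h2 : (2 : ℝ) ≤ q := by exact_mod_cast (hS q hq).1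
    have h3 := Real.log_le_log (by norm_num) h2
    exact ⟨by linarith, h3⟩
  have ht : ∀ q ∈ S, tq e c q ≤ C1 / R := by
    intro q hq
    obtain ⟨h1, h2⟩ := hlog q hq
    have hRq : (R : ℝ) ≤ q := by exact_mod_cast (hS q hq).2.1
    have h3 : Real.log 2 ^ (1 + e) ≤ Real.log (q : ℝ) ^ (1 + e) :=
      Real.rpow_le_rpow hl2.le h2 (by linarith)
    have h4 : 0 < Real.log 2 ^ (1 + e) := Real.rpow_pos_of_pos hl2 _
    unfold tq
    rw [hC1, div_div, mul_comm (Real.log 2 ^ (1 + e)) (R : ℝ)]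
    apply div_le_div_of_nonneg_left hc.le (by positivity)
    exact mul_le_mul hRq h3 h4.le (by linarith)
  have hmul : ∀ q ∈ S, ∀ h, 1 ≤ h → h < Tq e c q → h * q ≤ Y := by
    intro q hq h _ hh
    obtain ⟨h1, _⟩ := hlog q hq
    have hq0 : (0 : ℝ) < q := by exact_mod_cast (by have := (hS q hq).1; omega : 0 < q)
    have hq2R : (q : ℝ) ≤ 2 * R := by exact_mod_cast (hS q hq).2.2.le
    have hL : Real.log (q : ℝ) ^ (1 + e) ≤ B * (q : ℝ) ^ d := by
      have h5 := Real.log_le_rpow_div hq0.le (show 0 < d / (1 + e) by positivity)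
      have h6 : Real.log (q : ℝ) ^ (1 + e) ≤ ((q : ℝ) ^ (d / (1 + e)) / (d / (1 + e))) ^ (1 + e) :=
        Real.rpow_le_rpow h1.le h5 (by linarith)
      have h7 : ((q : ℝ) ^ (d / (1 + e)) / (d / (1 + e))) ^ (1 + e) = B * (q : ℝ) ^ d := by
        rw [div_eq_mul_inv, Real.mul_rpow (by positivity) (by positivity), inv_div,
          ← Real.rpow_mul hq0.le, div_mul_cancel₀ _ (by positivity), hB]
        ring
      rwa [h7] at h6
    have hT : (h : ℝ) ≤ 1 / (2 * tq e c q) := by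
      have htp : 0 < tq e c q := by
        unfold tq
        have := Real.rpow_pos_of_pos h1 (1 + e)
        positivity
      have h8 : (Tq e c q : ℝ) ≤ 1 / (2 * tq e c q) := Nat.floor_le (by positivity)
      have h9 : (h : ℝ) ≤ Tq e c q := by exact_mod_cast hh.le
      linarith
    have hT2 : 1 / (2 * tq e c q) = (q : ℝ) * Real.log (q : ℝ) ^ (1 + e) / (2 * c) := by
      unfold tq
      have := Real.rpow_pos_of_pos h1 (1 + e)
      field_simp
    apply Nat.le_floor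
    push_cast
    calc (h : ℝ) * q ≤ ((q : ℝ) * Real.log (q : ℝ) ^ (1 + e) / (2 * c)) * q := by
          rw [← hT2]
          exact mul_le_mul_of_nonneg_right hT hq0.le
      _ ≤ ((q : ℝ) * (B * (q : ℝ) ^ d) / (2 * c)) * q := by gcongr
      _ = B / (2 * c) * (q : ℝ) ^ (2 + d) := by
          rw [Real.rpow_add hq0, show (2 : ℝ) = ((2 : ℕ) : ℝ) by norm_num, Real.rpow_natCast]
          ring
      _ ≤ B / (2 * c) * (2 * (R : ℝ)) ^ (2 + d) := by gcongr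
      _ = B / (2 * c) * (2 : ℝ) ^ (2 + d) * (R : ℝ) ^ (2 + d) := by
          rw [Real.mul_rpow (by norm_num) hR0.le]
          ring
      _ ≤ B / (2 * c) * (2 : ℝ) ^ (3 : ℝ) * (R : ℝ) ^ (2 + d) := by
          have : (2 : ℝ) ^ (2 + d) ≤ (2 : ℝ) ^ (3 : ℝ) :=
            Real.rpow_le_rpow_of_exponent_le (by norm_num) (by linarith)
          gcongr
      _ = C3 * (R : ℝ) ^ (2 + d) := by
          have h8 : (2 : ℝ) ^ (3 : ℝ) = 8 := by norm_num
          rw [h8, hC3]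
          field_simp
          ring
  have hD : ∀ y, 1 ≤ y → y ≤ Y → (y.divisors.card : ℝ) ≤ C0 * (C3 * (R : ℝ) ^ (2 + d)) ^ d := by
    intro y hy1 hy2
    refine (hdiv y (by omega)).trans ?_
    have h1 : (y : ℝ) ≤ C3 * (R : ℝ) ^ (2 + d) := le_trans (by exact_mod_cast hy2) hYle
    gcongr
  have hblock := block_le hP S (Tq e c) Y (fun q hq => by have := (hS q hq).1; omega) hmul hD
  have hZ : 0 < C3 * (R : ℝ) ^ (2 + d) := by positivity
  have hstep : ∑ q ∈ S, tq e c q * ∑ h ∈ Ico 1 (Tq e c q), P (h * q)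
      ≤ C1 / R * ((C0 * (C3 * (R : ℝ) ^ (2 + d)) ^ d) *
        (C * (C3 * (R : ℝ) ^ (2 + d)) ^ (1 + d) * E)) := by
    calc ∑ q ∈ S, tq e c q * ∑ h ∈ Ico 1 (Tq e c q), P (h * q)
        ≤ ∑ q ∈ S, C1 / R * ∑ h ∈ Ico 1 (Tq e c q), P (h * q) := by
          apply sum_le_sum
          intro q hq
          exact mul_le_mul_of_nonneg_right (ht q hq) (sum_nonneg fun _ _ => hP _)
      _ = C1 / R * ∑ q ∈ S, ∑ h ∈ Ico 1 (Tq e c q), P (h * q) := by rw [mul_sum]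
      _ ≤ C1 / R * ((C0 * (C3 * (R : ℝ) ^ (2 + d)) ^ d) * ∑ y ∈ Icc 1 Y, P y) := by
          gcongr
      _ ≤ C1 / R * ((C0 * (C3 * (R : ℝ) ^ (2 + d)) ^ d) *
          (C * (C3 * (R : ℝ) ^ (2 + d)) ^ (1 + d) * E)) := by
          have h1 := hsum Y
          have h2 : C * (Y : ℝ) ^ (1 + d) * E ≤ C * (C3 * (R : ℝ) ^ (2 + d)) ^ (1 + d) * E := by
            gcongr
          have h3 := h1.trans h2
          gcongr
  refine hstep.trans ?_
  have e1 : (C3 * (R : ℝ) ^ (2 + d)) ^ d * (C3 * (R : ℝ) ^ (2 + d)) ^ (1 + d) =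
      C3 ^ (1 + 2 * d) * (R : ℝ) ^ ((2 + d) * (1 + 2 * d)) := by
    rw [← Real.rpow_add hZ, Real.mul_rpow hC3p.le (by positivity), ← Real.rpow_mul hR0.le]
    congr 2 <;> ring
  have e2 : (R : ℝ) ^ ((2 + d) * (1 + 2 * d)) / R ≤ (R : ℝ) ^ (1 + 6 * d) := by
    have h1 : (R : ℝ) ^ ((2 + d) * (1 + 2 * d)) / R = (R : ℝ) ^ ((2 + d) * (1 + 2 * d) - 1) := by
      rw [Real.rpow_sub hR0, Real.rpow_one]
    rw [h1]
    apply Real.rpow_le_rpow_of_exponent_le hR1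
    nlinarith
  calc C1 / R * ((C0 * (C3 * (R : ℝ) ^ (2 + d)) ^ d) *
        (C * (C3 * (R : ℝ) ^ (2 + d)) ^ (1 + d) * E))
      = C1 * C0 * C * E * (((C3 * (R : ℝ) ^ (2 + d)) ^ d * (C3 * (R : ℝ) ^ (2 + d)) ^ (1 + d)) / R) := by
        ring
    _ = C1 * C0 * C * E * C3 ^ (1 + 2 * d) * ((R : ℝ) ^ ((2 + d) * (1 + 2 * d)) / R) := by
        rw [e1]
        ring
    _ ≤ C1 * C0 * C * E * C3 ^ (1 + 2 * d) * (R : ℝ) ^ (1 + 6 * d) := by
        gcongr
    _ = (C1 * C0 * C * C3 ^ (1 + 2 * d)) * (R : ℝ) ^ (1 + 6 * d) * E := by ring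

theorem Pr_nonneg {m : ℕ} (x : Fin m → ℝ) (H h : ℕ) : 0 ≤ Pr x H h := by
  unfold Pr
  apply prod_nonneg
  intro i _
  apply le_min
  · positivity
  · apply div_nonneg zero_le_one
    unfold nd
    positivity

theorem blk_of (h : GSum) : GBlk := by
  intro m x hx e c k he hc hk
  set d : ℝ := min (1 / 2) (k / (4 * (7 * m + 1))) with hd
  have hm0 : (0 : ℝ) ≤ m := Nat.cast_nonneg m
  have hd0 : 0 < d := lt_min (by norm_num) (by positivity)
  have hd1 : d ≤ 1 / 2 := min_le_left _ _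
  have hd2 : d * (7 * m + 1) ≤ k / 4 := by
    have h1 : d ≤ k / (4 * (7 * m + 1)) := min_le_right _ _
    calc d * (7 * m + 1) ≤ k / (4 * (7 * m + 1)) * (7 * m + 1) := by gcongr
      _ = k / 4 := by
        field_simp
  obtain ⟨C0, hC0, hdiv⟩ := Pool.Agent.Helper92.Field.divisor_bound hd0
  obtain ⟨C, hC, hsum⟩ := h m x hx d hd0
  set C4 := c / Real.log 2 ^ (1 + e) * C0 * C * (4 * (((1 + e) / d) ^ (1 + e)) / c) ^ (1 + 2 * d)
    with hC4
  have hl2 : 0 < Real.log 2 := Real.log_pos (by norm_num)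
  have hC4p : 0 < C4 := by
    have := Real.rpow_pos_of_pos hl2 (1 + e)
    positivity
  set C5 := 1 / (d * Real.log 2) + 1 with hC5
  have hC5p : 0 < C5 := by positivity
  have hev : ∀ᶠ H : ℕ in atTop, C5 * C4 ≤ (H : ℝ) ^ (k / 4) :=
    ((tendsto_rpow_atTop (by positivity)).comp tendsto_natCast_atTop_atTop).eventually_ge_atTop _
  obtain ⟨H0, hH0⟩ := eventually_atTop.1 hev
  refine ⟨max H0 1, fun H hH => ?_⟩
  have hH1 : 1 ≤ H := (le_max_right _ _).trans hH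
  have hHr : (1 : ℝ) ≤ H := by exact_mod_cast hH1
  have hHp : (0 : ℝ) < H := by linarith
  have hbig := hH0 H ((le_max_left _ _).trans hH)
  set X : ℝ := (H : ℝ) ^ ((m : ℝ) - k) with hX
  have hXp : 0 < X := Real.rpow_pos_of_pos hHp _
  by_cases hX2 : ⌊X⌋₊ < 2
  · rw [Icc_eq_empty (by omega), sum_empty]
    positivity
  push Not at hX2
  have hXf : ((⌊X⌋₊ : ℕ) : ℝ) ≤ X := Nat.floor_le hXp.le
  have hX1 : 1 ≤ X := by
    have : (2 : ℝ) ≤ ((⌊X⌋₊ : ℕ) : ℝ) := by exact_mod_cast hX2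
    linarith
  set L := Nat.log 2 ⌊X⌋₊ with hL
  have hmaps : ∀ q ∈ Icc 2 ⌊X⌋₊, Nat.log 2 q ∈ range (L + 1) := by
    intro q hq
    rw [mem_Icc] at hq
    rw [mem_range]
    have := Nat.log_mono_right (b := 2) hq.2
    omega
  have hone : ∀ i ∈ range (L + 1), ∑ q ∈ (Icc 2 ⌊X⌋₊).filter (fun q => Nat.log 2 q = i),
      tq e c q * ∑ h ∈ Ico 1 (Tq e c q), Pr x H (h * q) ≤ C4 * X ^ (1 + 6 * d) * (H : ℝ) ^ d := by
    intro i hi
    rw [mem_range] at hi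
    have h1 := dyadic (P := Pr x H) (Pr_nonneg x H) he hc hd0 hd1 hC0 hC
      (E := (H : ℝ) ^ d) (by positivity) hdiv (fun Y => hsum Y H hH1)
      ((Icc 2 ⌊X⌋₊).filter (fun q => Nat.log 2 q = i)) (2 ^ i) Nat.one_le_two_pow (by
        intro q hq
        rw [mem_filter, mem_Icc] at hq
        have h2 : 2 ^ Nat.log 2 q ≤ q := Nat.pow_log_le_self 2 (by omega)
        have h3 : q < 2 ^ (Nat.log 2 q + 1) := Nat.lt_pow_succ_log_self (by norm_num) _
        rw [hq.2] at h2 h3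
        rw [pow_succ] at h3
        exact ⟨hq.1.1, h2, by omega⟩)
    refine h1.trans ?_
    have h4 : ((2 ^ i : ℕ) : ℝ) ≤ X := by
      have h5 : 2 ^ i ≤ ⌊X⌋₊ :=
        (Nat.pow_le_pow_right (by norm_num) (by omega : i ≤ L)).trans
          (Nat.pow_log_le_self 2 (by omega))
      exact le_trans (by exact_mod_cast h5) hXf
    gcongr
  rw [← sum_fiberwise_of_maps_to hmaps]
  have hLb : ((L : ℝ) + 1) ≤ C5 * X ^ d := by
    have h1 : (2 : ℝ) ^ L ≤ X := by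
      have h5 : 2 ^ L ≤ ⌊X⌋₊ := Nat.pow_log_le_self 2 (by omega)
      exact le_trans (by exact_mod_cast h5) hXf
    have h2 := Real.log_le_log (by positivity) h1
    rw [Real.log_pow] at h2
    have h3 := Real.log_le_rpow_div hXp.le hd0
    have h4 : (L : ℝ) ≤ X ^ d / (d * Real.log 2) := by
      rw [le_div_iff₀ (by positivity)]
      have h6 : (L : ℝ) * Real.log 2 ≤ X ^ d / d := h2.trans h3
      rw [le_div_iff₀ hd0] at h6
      linarith
    have h5 : 1 ≤ X ^ d := Real.one_le_rpow hX1 hd0.le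
    rw [hC5]
    calc (L : ℝ) + 1 ≤ X ^ d / (d * Real.log 2) + X ^ d := add_le_add h4 h5
      _ = (1 / (d * Real.log 2) + 1) * X ^ d := by ring
  calc ∑ i ∈ range (L + 1), ∑ q ∈ (Icc 2 ⌊X⌋₊).filter (fun q => Nat.log 2 q = i),
        tq e c q * ∑ h ∈ Ico 1 (Tq e c q), Pr x H (h * q)
      ≤ ((L : ℝ) + 1) * (C4 * X ^ (1 + 6 * d) * (H : ℝ) ^ d) := by
        have := sum_le_card_nsmul (range (L + 1)) _ _ hone
        rw [card_range, nsmul_eq_mul] at this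
        push_cast at this
        exact this
    _ ≤ (C5 * X ^ d) * (C4 * X ^ (1 + 6 * d) * (H : ℝ) ^ d) := by gcongr
    _ = (C5 * C4) * (X ^ (1 + 7 * d) * (H : ℝ) ^ d) := by
        have : X ^ (1 + 7 * d) = X ^ d * X ^ (1 + 6 * d) := by
          rw [← Real.rpow_add hXp]
          congr 1
          ring
        rw [this]
        ring
    _ ≤ (H : ℝ) ^ (k / 4) * (H : ℝ) ^ ((m : ℝ) - 3 * k / 4) := by
        have h1 : X ^ (1 + 7 * d) * (H : ℝ) ^ d ≤ (H : ℝ) ^ ((m : ℝ) - 3 * k / 4) := by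
          rw [hX, ← Real.rpow_mul hHp.le, ← Real.rpow_add hHp]
          apply Real.rpow_le_rpow_of_exponent_le hHr
          have : 0 < d * k := by positivity
          nlinarith
        gcongr
    _ = (H : ℝ) ^ ((m : ℝ) - k / 2) := by
        rw [← Real.rpow_add hHp]
        congr 1
        ring

end Pool.Agent.Helper23.LF
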